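import Pool.Agent.Helper14.W5.StD

/-!
# A fast kernel check for the coefficient sums `cS` (Kronecker substitution)

`N = ∑_t (X^392 + κ(t) G(g) M(m) Z(b) X^(98 w))`, `X = 2^24`, `G(g) = ∑_(i<7) C(g,i) X^i`, `M(m) = ∑_(k<2) C(m,k) X^(49k)`, `Z(b) = ∑_(j<7) C(b,j) X^(7j)` (binomials modulo 5, from tables).
One pass over the list, the accumulator is forced at each step.
-/

set_option autoImplicit false
set_option exponentiation.threshold 20000

namespace Pool.Agent.Helper81.T7

open Pool.Agent.Helper14.W5

/-- Evaluates the natural number before the function is applied. -/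
noncomputable def sq {α : Type} (n : ℕ) (f : ℕ → α) : α :=
  @Nat.rec (fun _ => α) (f 0) (fun k _ => f (Nat.succ k)) n

theorem sq_eq {α : Type} (n : ℕ) (f : ℕ → α) : sq n f = f n := by
  cases n <;> rfl

/-- Residue modulo `25`. -/
noncomputable def rd (z : ℤ) : ℕ :=
  @Int.rec (fun _ => ℕ) (fun n => Nat.mod n 25) (fun n => Nat.sub 24 (Nat.mod n 25)) z

/-- Residue modulo `5`. -/
noncomputable def rk (z : ℤ) : ℕ :=
  @Int.rec (fun _ => ℕ) (fun n => Nat.mod n 5) (fun n => Nat.sub 4 (Nat.mod n 5)) z

/-- The digit base. -/
def X1 : ℕ := 16777216
def X7 : ℕ := Nat.pow X1 7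
def X49 : ℕ := Nat.pow X1 49
def X98 : ℕ := Nat.pow X1 98
def X392 : ℕ := Nat.pow X1 392

def TG : ℕ := 1262588985483405771775078759241095954546843065282938774281881260203873154411190186647789314708562666584618692706018262996896115351272334676086927876679570074788728512163648067430342294002006761453855517708564029857493735313344463027621374807628718254551654983217122684030459222353725765430271176962820560012280856637838699723003706492235963684168936456792709854020046049527045229803676684629396726782476605637094395191799185276298033730946448942143489665208088968461641037935529537830663820866301209848866372623573390460277282346539369137994017165402738634449656401483276399457936986566228923598212674833817244423275129208416362164215253007609181341021069539964388543220630492111653284765884474484666760697785314124738687051038978994740161040177024076940370287825953959323260147075976322817441123502063464974022175244575685516653323929991565091846375054835498770917410759083561088541406247680560469895053024890262469181939478627434920951079263334322717163065643424427197950190506059301399208900342047078685888947378000539629620523627855887968842965255444307847446146289514273638034461679839384481916736855586142503709476969223168326253961476046892709187287713637139673928337229460070315328693655207335688231695588693341121015874867748126860650187514334674945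

def TZ : ℕ := 5114854093175281332780358915923892112939843488624291605216738469057291682142936413427549598539242761540090769872901127871594421288624058715852840932257637147308666839663736595171303541639635028334520848688707994317438040060701467377781817528838383457267752240883714753096752466808638668638009306553149399643030746185477569031931365139424093375989594679548505108130073268711693236037843714304708170324176656588253044236764995664761437496173190079215307949711556535854217856593163180753382114588604396638876201384005291299249680858442183152186830825987940363865749186882291092327509387712717200988653476157152633113025954814234803745348140034552753122743391818289719675832682950076033526974512384863799336694163673813236670386688862699518334931677096286242784430712990902734360067978091371000662065054781654471009447860270784954856146985010475065271129662657127558312232396320835492795795974519781820841832420132904546431520830492547149508416765423881519961098870999973633346581310834109628748580727272982533570920271103770796853756152915220897079988122094734682391526088607858682324041734938889154141442824784608386963804076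96921858677458228771798417399502338622553629382009528443095053346034324192410767113960849579493815459685755211509326527727783427138714084640078751310893625853821564497097425481136089700533643229691046808250357335117038416126685677402603602688504595035485981479974214680414619374754807300558490740776463823617787593814267848952568153770111310024710283753383137262036913320586973553761342914854075955790812403283324713818835896815111144676528813905877983950902581035595357759059300806851770480076144226074540860743388330455756156905595520012375227814369665878100036533616420937801054246369498124964095985459026337101411530068614142782749803144974878107504186941640751937990723846364150605934932162931667996324350645190664610324692336166162684838041168297510122736093353690715773432398178924113518421567125398549331927691693343453286299960093587224659696403018408375179369478536844332761500084272092513024513514906089496559173642083796674893103486709798702673849990644438641698492775879345190155766836880313132829920575931752307358954710601052048521015995799906302772058831088377242518635347460115778722037369765274031667623162043519878554511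56366774684828418412400660203532264006017175524620607017241706117120163973480290232932664724224406931732770128456307275070449355010348044382928943008247599883805089648882041762640344144134413323956131589123973384312483450307130595907685733592720108210258755068869797530300223721522518385953858923677806489447052175739914323275586424067889758573272966923836833188788407458895597250117583258944619649596034214703697912509419380104339861333555422190511220522382559991338354546683341184236847079731657407836995893726369192609221768346844388690334223048576829838102655840557502658824962639219226148217772311872770351999906345370611439308267807675395376895902620102606241128524703873125233990728814957796557624046005878893766702956147110421010376763556339421350080959854858951350952110796724598785489351449272601515774050331593725157234148968012656730572235078301699497294871911860761137814856792072295008522895391910675097473839316031524398776691950655845511658029266656109266712832637816243272955974561689812302936295306383499848703694451005744347451450250287790757512452311041860903377964480118262367709344781757913234141727247326578269560823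05327107330207146760993384361536294290732973160660125804253364879074539236350211399102770593295163090496090445890707407917485263014841067530774615316856980034303195702618080446286545909588043124203981047101952784671170257298458682273292754195021136673664479517383720349199951711772814002231172750642237758757290125730847345089730227427808839212319446590049205503766120301161451577017710516427978193756113473232756297009985523830818290548111537584413559775455223696296510960694637904436321692615172073876421666365082898755261777336263741983354873119150339806984791461113455000273510862512341113732630394073271108183082230960296269914319440753289819918647619028979113460252356234444690252812016554307775109921891371121942301001222904241998261478196937939369363504277205205693348036050078162097230274431239117481210522701543472561986020586497403817465365218488383501502496947425823791040813645078187101825698733584552770060621161899733733775394881910694727825354634170061470856602016655181043389222993744565238569282026904627683853093097333794538550873762618304787180802601543259607469930216010844044435904368064751169136976735624351856186093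86892031018920546769726156908474940206188466269173746574726219190097858513275549096889044573368706915282927324293837173420415595138889876344402323502066189552526137945994183442754063532685977804520892632282149692596952595304400917388268407752020746300579216852943619909839283388513362811758239384718384502015705305029972809493668441272462231116186508189888759415918061019647728581165481455314393183807999617574148560345233386525399527499743032646406937770088178672469740363392135182621192082350689894438766858683113755047749337197032923171742817795640630524728874825407968309943666407956137083420500725980470653301356137471856308149889533159185206920548589033529942246185993987113540772772710489721573182711840263896357044342257141612684742012720118695372797563637347230699280562604673673419444442035580698635544404073236866217352339599139790460347077323090653434364952664606537222754014621298744366045930677958040622473398072041684112936223234739993628891069212035908974391990135388645781462301038552697206107810634114711098525268241776275191526367044412970373046206933217181557457936969625693626373445492993473743000086652948193128220717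91035406086141317663327805008961825081130810329384188442200130081872385066185820522983435243861921927833517178736074152668651067820423223642440594092468440718183749928468243195388239398577494563798500850706506173179727932582056635414554768761342890566175949304326074009716429016318744252877967692051655194208264358041793546810979412095735918066737158689998085859130062837028431212681714333863543590877499110808924105879364600123112514580179033673738400289653017276315440001508438039708568773881889559807387722880336114289829061568237685025726816601856714997316253779018204034309789938170961702220344959680034482772016692487441968971229872335876082461198328651142237067785036434905374865243675279869296098455329354064018366176505656919348542163250801485259747886682987182166820859632349732826229632387889769347425266864841380438121804785886510574483587901210322558727427786631321414520413512929253879821764686342561950260117699828048436167585079547095110205248491094525935657651487985886722620626505542483649943159015386869172942740491106251083765630579994025241013270738191088961968974323048524084968769597018154722098452496778540471917327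85565034381548651781965642869660191515795517041180437682276439031051285572709640493705133323147264438439745779769671320244856744979868101050541667344838099073980764181583022603675422764350886762277654219568419267216433198209311558299518120098232366806534175923658506682753817933577680470019578659634661000571448036789699054543260749348823540017531372580126920908180583807954918811937670342854605558636320931100300708401827604611040956001127600239031686958468107536050299842160664374719434673388459535665970773287904305503650412219879813365530873855380090042454492721632990791592329736320534189247118750698940645004947026493280795606143764927226144583234313763324289972209543814236037508524864424251898780027246925359995898027219660531466581367022540864665547221588547371983095597659359063539516160977423745109970499592760062322629378483055666375694195542543982127789945818372400904261382819099714443286956911209189928525940522964456944582384286700786081506647179988090702522435192280197017892449945239292095785348482525657810331710809312962826069270827042138726059469171383054489966604967364372773063858371500917183459083599081165510723518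992423317017495455354670787893806895051335677086532566818744780830879369832524687348569656319249050736914016145911186749209188514915235282015969024855752370875368711291880120544111398911012032388676968415199587098203507409837778432290868266111223635942360062197805665039465775240802393340803254287208875566117032481666305783720082173766032794131883517385041011307030949170695006677758053736569862966519165862535696727492656362315167069385423372932232373343230053965287307909664349555861482959082826569871271751388716427021020118577302578264587193708012110830190571724403774683967800947616239865385397540216438380992971791168128942624190129921258488696602216721501192240945032908193993201028636738585843192827617420609656118970461141384016137361524377219051900689197614748329015854729070110004699290046459009591223589554507596836163519506284545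

def Gt (g : ℕ) : ℕ := Nat.mod (Nat.shiftRight TG (Nat.mul 168 g)) X7
def Zt (b : ℕ) : ℕ := Nat.mod (Nat.shiftRight TZ (Nat.mul 1176 b)) X49
def wN (l : ℕ) : ℕ := Nat.mod (Nat.shiftRight 723 (Nat.mul 2 (Nat.mod l 5))) 4
def oN (w : ℕ) : ℕ := Nat.mod (Nat.shiftRight 254529 (Nat.mul 5 w)) 32

/-- The value of a term with residues `A, B, C, D` modulo `25`, `K` modulo `5`. -/
noncomputable def core (A B C D K : ℕ) : ℕ :=
  sq (Nat.mod (Nat.pow A 19) 25) fun I =>
  sq (Nat.mod (Nat.mul (Nat.add (Nat.mul A D) (Nat.mul 20 (Nat.mul B C))) (Nat.mul I I)) 25) fun l =>
  sq (wN l) fun w => sq (oN w) fun O =>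
    Nat.mul (Nat.mul K (Nat.mul (Gt (Nat.mod (Nat.mul (Nat.mul C I) O) 25))
      (Nat.mul (Nat.add 1 (Nat.mul (Nat.div (Nat.mod (Nat.mul l O) 25) 5) X49))
        (Zt (Nat.mod (Nat.mul B I) 25))))) (Nat.pow X98 w)

/-- The value of a term. -/
noncomputable def val (t : Tm) : ℕ :=
  sq (rd t.2.1) fun A => sq (rd t.2.2.1) fun B => sq (rd t.2.2.2.1) fun C => sq (rd t.2.2.2.2) fun D =>
    sq (rk t.1) fun K => core A B C D K

/-- The sum of the values. -/
noncomputable def loop (L : List Tm) : ℕ → ℕ :=
  @List.rec Tm (fun _ => ℕ → ℕ) (fun acc => acc)
    (fun t _ ih acc => sq (Nat.add acc (Nat.add X392 (val t))) ih) L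

/-- The digits. -/
def dg (N w k j i : ℕ) : ℕ :=
  Nat.mod (Nat.div (Nat.mod (Nat.div (Nat.mod (Nat.div (Nat.mod (Nat.div N (Nat.pow X98 w)) X98)
    (Nat.pow X49 k)) X49) (Nat.pow X7 j)) X7) (Nat.pow X1 i)) X1

/-- The monomials. -/
def M7L : List (ℕ × ℕ × ℕ) := [(0, 0, 0), (0, 0, 1), (0, 0, 2), (0, 0, 3), (0, 0, 4), (0, 0, 5), (0, 0, 6), (0, 1, 0), (0, 1, 1), (0, 1, 2), (1, 0, 0), (1, 0, 1), (1, 0, 2), (1, 0, 3), (1, 0, 4), (1, 0, 5), (1, 1, 0), (1, 1, 1), (2, 0, 0), (2, 0, 1), (2, 0, 2), (2, 0, 3), (2, 0, 4), (2, 1, 0), (3, 0, 0), (3, 0, 1), (3, 0, 2), (3, 0, 3), (4, 0, 0), (4, 0, 1), (4, 0, 2), (5, 0, 0), (5, 0, 1), (6, 0, 0)]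

/-- Comparison of the digits. -/
noncomputable def chk (N : ℕ) (want : Fin 4 → ℕ → ℕ → ℕ → ℤ) : Bool :=
  Nat.ble (Nat.succ (Nat.div N X392)) 65536 && ([0, 1, 2, 3] : List (Fin 4)).all fun w =>
    M7L.all fun t => Nat.beq (Nat.mod (dg N w.val t.2.1 t.2.2 t.1) 5) (rk (want w t.1 t.2.1 t.2.2))

/-- The check. -/
noncomputable def fastC (L : List Tm) (want : Fin 4 → ℕ → ℕ → ℕ → ℤ) : Bool :=
  sq (loop L 0) fun N => chk N want

/-! ### Residues -/

private theorem rd_eq (z : ℤ) : ((rd z : ℕ) : ℤ) = z % 25 := by
  cases z with
  | ofNat n =>
    change (((n % 25 : ℕ)) : ℤ) = (n : ℤ) % 25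
    omega
  | negSucc n =>
    change (((24 - n % 25 : ℕ)) : ℤ) = Int.negSucc n % 25
    rw [Int.negSucc_eq]
    omega

private theorem rk_eq (z : ℤ) : ((rk z : ℕ) : ℤ) = z % 5 := by
  cases z with
  | ofNat n =>
    change (((n % 5 : ℕ)) : ℤ) = (n : ℤ) % 5
    omega
  | negSucc n =>
    change (((4 - n % 5 : ℕ)) : ℤ) = Int.negSucc n % 5
    rw [Int.negSucc_eq]
    omega

private theorem rk_lt (z : ℤ) : rk z < 5 := by
  have h := rk_eq z
  have := Int.emod_lt_of_pos z (by norm_num : (0 : ℤ) < 5)
  omega

private theorem rd_me (z : ℤ) : ((rd z : ℕ) : ℤ) ≡ z [ZMOD 25] := by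
  rw [rd_eq]
  exact Int.mod_modEq z 25

/-! ### The fast functions -/

private noncomputable def cI (t : Tm) : ℕ := rd t.2.1 ^ 19 % 25
private noncomputable def cl (t : Tm) : ℕ :=
  (rd t.2.1 * rd t.2.2.2.2 + 20 * (rd t.2.2.1 * rd t.2.2.2.1)) * (cI t * cI t) % 25

private theorem cI_eq (t : Tm) : ((cI t : ℕ) : ℤ) = aI t := by
  unfold cI aI
  push_cast
  exact (rd_me t.2.1).pow 19

private theorem cl_eq (t : Tm) : ((cl t : ℕ) : ℤ) = lE t := by
  unfold cl lE
  push_cast
  rw [cI_eq, ← pow_two]
  have h1 : (((rd t.2.1 : ℕ) : ℤ) * ((rd t.2.2.2.2 : ℕ) : ℤ) +
      20 * (((rd t.2.2.1 : ℕ) : ℤ) * ((rd t.2.2.2.1 : ℕ) : ℤ))) ≡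
      t.2.1 * t.2.2.2.2 + (-5) * (t.2.2.1 * t.2.2.2.1) [ZMOD 25] :=
    ((rd_me _).mul (rd_me _)).add (Int.ModEq.mul (by decide) ((rd_me _).mul (rd_me _)))
  have h2 := h1.mul (Int.ModEq.refl (aI t ^ 2))
  have e : t.2.1 * t.2.2.2.2 + (-5) * (t.2.2.1 * t.2.2.2.1) =
      t.2.1 * t.2.2.2.2 - 5 * t.2.2.1 * t.2.2.2.1 := by ring
  rw [e] at h2
  exact h2

private theorem wN_eq (t : Tm) : wN (cl t) = (wE t).val := by
  have h5 : cl t % 5 < 5 := Nat.mod_lt _ (by norm_num)
  unfold wE
  rw [← cl_eq]
  have hN : wN (cl t) = Nat.mod (Nat.shiftRight 723 (Nat.mul 2 (cl t % 5))) 4 := rfl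
  rw [hN]
  rcases (show cl t % 5 = 0 ∨ cl t % 5 = 1 ∨ cl t % 5 = 2 ∨ cl t % 5 = 3 ∨ cl t % 5 = 4 by omega)
    with h | h | h | h | h
  · have e : ((cl t : ℕ) : ℤ) % 5 = 0 := by omega
    rw [e, h]; decide
  · have e : ((cl t : ℕ) : ℤ) % 5 = 1 := by omega
    rw [e, h]; decide
  · have e : ((cl t : ℕ) : ℤ) % 5 = 2 := by omega
    rw [e, h]; decide
  · have e : ((cl t : ℕ) : ℤ) % 5 = 3 := by omega
    rw [e, h]; decide
  · have e : ((cl t : ℕ) : ℤ) % 5 = 4 := by omega
    rw [e, h]; decide

private theorem oN_eq : ∀ w : Fin 4, ((oN w.val : ℕ) : ℤ) = oi4 w := by decide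

private theorem gE_eq (t : Tm) : rd t.2.2.2.1 * cI t * oN (wE t).val % 25 = gE t := by
  unfold gE
  have h : ((rd t.2.2.2.1 * cI t * oN (wE t).val % 25 : ℕ) : ℤ) =
      (t.2.2.2.1 * aI t * oi4 (wE t)) % 25 := by
    push_cast
    rw [cI_eq, oN_eq]
    exact ((rd_me _).mul (Int.ModEq.refl _)).mul (Int.ModEq.refl _)
  rw [← h, Int.toNat_natCast]

private theorem bE_eq (t : Tm) : rd t.2.2.1 * cI t % 25 = bE t := by
  unfold bE
  have h : ((rd t.2.2.1 * cI t % 25 : ℕ) : ℤ) = (t.2.2.1 * aI t) % 25 := by
    push_cast
    rw [cI_eq]
    exact (rd_me _).mul (Int.ModEq.refl _)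
  rw [← h, Int.toNat_natCast]

private theorem mE_eq (t : Tm) : cl t * oN (wE t).val % 25 / 5 = mE t := by
  unfold mE
  have h : ((cl t * oN (wE t).val % 25 / 5 : ℕ) : ℤ) = (lE t * oi4 (wE t)) % 25 / 5 := by
    push_cast
    rw [cl_eq, oN_eq]
  rw [← h, Int.toNat_natCast]

private theorem gE_lt (t : Tm) : gE t < 25 := by
  rw [← gE_eq]; exact Nat.mod_lt _ (by norm_num)

private theorem bE_lt (t : Tm) : bE t < 25 := by
  rw [← bE_eq]; exact Nat.mod_lt _ (by norm_num)

private theorem mE_lt (t : Tm) : mE t < 5 := by
  rw [← mE_eq]; omega

/-- Binomials modulo five. -/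
def cf (n i : ℕ) : ℕ := n.choose i % 5

private theorem Gt_eq : ∀ g < 25, Gt g = ∑ i ∈ Finset.range 7, cf g i * X1 ^ i := by
  decide +kernel

private theorem Zt_eq : ∀ b < 25, Zt b = ∑ j ∈ Finset.range 7, cf b j * X7 ^ j := by
  decide +kernel

private theorem Mt_eq (m : ℕ) (h : m < 5) : 1 + m * X49 = ∑ k ∈ Finset.range 2, cf m k * X49 ^ k := by
  rw [Finset.sum_range_succ, Finset.sum_range_one]
  unfold cf
  rw [Nat.choose_zero_right, Nat.choose_one_right, Nat.mod_eq_of_lt h, pow_zero, pow_one]
  have e : (1 % 5 * 1 : ℕ) = 1 := rfl
  rw [e]

private noncomputable def PG (t : Tm) : ℕ := ∑ i ∈ Finset.range 7, cf (gE t) i * X1 ^ i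
private noncomputable def PZ (t : Tm) : ℕ := ∑ j ∈ Finset.range 7, cf (bE t) j * X7 ^ j
private noncomputable def PM (t : Tm) : ℕ := ∑ k ∈ Finset.range 2, cf (mE t) k * X49 ^ k

private theorem val_eq (t : Tm) :
    val t = rk t.1 * (PG t * (PM t * PZ t)) * X98 ^ (wE t).val := by
  have h : val t = rk t.1 * (Gt (rd t.2.2.2.1 * cI t * oN (wN (cl t)) % 25) *
      ((1 + cl t * oN (wN (cl t)) % 25 / 5 * X49) * Zt (rd t.2.2.1 * cI t % 25))) *
        X98 ^ wN (cl t) := by
    unfold val core
    simp only [sq_eq]
    rfl
  rw [h, wN_eq, gE_eq, mE_eq, bE_eq, Gt_eq _ (gE_lt t), Zt_eq _ (bE_lt t), Mt_eq _ (mE_lt t)]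
  rfl

/-! ### Digits -/

private theorem lt_pow (b n : ℕ) (f : ℕ → ℕ) (hf : ∀ i < n, f i < b) :
    ∑ i ∈ Finset.range n, f i * b ^ i < b ^ n := by
  induction n with
  | zero => simp
  | succ n ih =>
    rw [Finset.sum_range_succ, pow_succ]
    have h1 := ih fun i hi => hf i (by omega)
    have h2 : (f n + 1) * b ^ n ≤ b * b ^ n := Nat.mul_le_mul_right _ (hf n (by omega))
    have h3 : (f n + 1) * b ^ n = f n * b ^ n + b ^ n := by ring
    have h4 : b * b ^ n = b ^ n * b := by ring
    omega

private theorem dig (b n : ℕ) (f : ℕ → ℕ) (hf : ∀ i < n, f i < b) (m : ℕ) (hm : m < n) :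
    (∑ i ∈ Finset.range n, f i * b ^ i) / b ^ m % b = f m := by
  have hb : 0 < b := by have := hf m hm; omega
  obtain ⟨k, rfl⟩ : ∃ k, n = m + (k + 1) := ⟨n - m - 1, by omega⟩
  rw [Finset.sum_range_add]
  have e : ∑ x ∈ Finset.range (k + 1), f (m + x) * b ^ (m + x) =
      b ^ m * (b * (∑ x ∈ Finset.range k, f (m + (x + 1)) * b ^ x) + f m) := by
    rw [Finset.sum_range_succ', mul_add, Finset.mul_sum, Finset.mul_sum, add_zero]
    congr 1
    · refine Finset.sum_congr rfl fun x _ => ?_
      rw [← add_assoc, pow_add, pow_add, pow_one]
      ring
    · ring
  rw [e, Nat.add_mul_div_left _ _ (pow_pos hb m),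
    Nat.div_eq_of_lt (lt_pow b m f fun i hi => hf i (by omega)), zero_add, Nat.mul_add_mod]
  exact Nat.mod_eq_of_lt (hf m hm)

private theorem swap (L : List Tm) (n : ℕ) (F : Tm → ℕ → ℕ) (c : ℕ → ℕ) :
    (L.map fun t => ∑ i ∈ Finset.range n, F t i * c i).sum =
      ∑ i ∈ Finset.range n, (L.map fun t => F t i).sum * c i := by
  induction L with
  | nil => simp
  | cons t L ih => simp only [List.map_cons, List.sum_cons, ih, add_mul, Finset.sum_add_distrib]

private noncomputable def T4 (w k j i : ℕ) (t : Tm) : ℕ :=
  if (wE t).val = w then rk t.1 * (cf (gE t) i * (cf (mE t) k * cf (bE t) j)) else 0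
private noncomputable def T3 (w k j : ℕ) (t : Tm) : ℕ :=
  if (wE t).val = w then rk t.1 * (PG t * (cf (mE t) k * cf (bE t) j)) else 0
private noncomputable def T2 (w k : ℕ) (t : Tm) : ℕ :=
  if (wE t).val = w then rk t.1 * (PG t * (cf (mE t) k * PZ t)) else 0
private noncomputable def T1 (w : ℕ) (t : Tm) : ℕ :=
  if w = 4 then 1 else if (wE t).val = w then rk t.1 * (PG t * (PM t * PZ t)) else 0

private theorem s3 (w k j : ℕ) (t : Tm) :
    T3 w k j t = ∑ i ∈ Finset.range 7, T4 w k j i t * X1 ^ i := by
  unfold T3 T4 PG
  split_ifs
  · rw [Finset.sum_mul, Finset.mul_sum]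
    exact Finset.sum_congr rfl fun i _ => by ring
  · simp

private theorem s2 (w k : ℕ) (t : Tm) :
    T2 w k t = ∑ j ∈ Finset.range 7, T3 w k j t * X7 ^ j := by
  unfold T2 T3 PZ
  split_ifs
  · rw [Finset.mul_sum, Finset.mul_sum, Finset.mul_sum]
    exact Finset.sum_congr rfl fun i _ => by ring
  · simp

private theorem s1 (w : ℕ) (hw : w < 4) (t : Tm) :
    T1 w t = ∑ k ∈ Finset.range 2, T2 w k t * X49 ^ k := by
  unfold T1 T2 PM
  rw [if_neg (by omega)]
  split_ifs
  · rw [Finset.sum_mul, Finset.mul_sum, Finset.mul_sum]
    exact Finset.sum_congr rfl fun i _ => by ring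
  · simp

private theorem s0 (t : Tm) :
    X392 + val t = ∑ w ∈ Finset.range 5, T1 w t * X98 ^ w := by
  have h : X392 = X98 ^ 4 := by
    unfold X392 X98
    exact (pow_mul X1 98 4)
  rw [val_eq, h, Finset.sum_range_succ]
  have h4 : T1 4 t = 1 := by unfold T1; rw [if_pos rfl]
  have hs : ∑ w ∈ Finset.range 4, T1 w t * X98 ^ w =
      rk t.1 * (PG t * (PM t * PZ t)) * X98 ^ (wE t).val := by
    rw [Finset.sum_eq_single (wE t).val]
    · unfold T1
      rw [if_neg (by have := (wE t).isLt; omega), if_pos rfl]
    · intro w hw hne
      unfold T1
      rw [if_neg (by have := Finset.mem_range.1 hw; omega), if_neg (fun h => hne h.symm), zero_mul]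
    · intro hn
      exact absurd (Finset.mem_range.2 (wE t).isLt) hn
  rw [h4, hs, one_mul, add_comm]

private theorem loop_eq (L : List Tm) (acc : ℕ) :
    loop L acc = acc + (L.map fun t => X392 + val t).sum := by
  induction L generalizing acc with
  | nil => rfl
  | cons t L ih =>
    have h : loop (t :: L) acc = sq (acc + (X392 + val t)) (loop L) := rfl
    rw [h, sq_eq, ih, List.map_cons, List.sum_cons]
    ring

private theorem T4_le (w k j i : ℕ) (t : Tm) : T4 w k j i t ≤ 256 := by
  unfold T4
  split_ifs
  · have h1 : rk t.1 ≤ 4 := by have := rk_lt t.1; omega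
    have h2 : ∀ n i, cf n i ≤ 4 := fun n i => by
      have : cf n i < 5 := Nat.mod_lt _ (by norm_num)
      omega
    calc rk t.1 * (cf (gE t) i * (cf (mE t) k * cf (bE t) j)) ≤ 4 * (4 * (4 * 4)) :=
          Nat.mul_le_mul h1 (Nat.mul_le_mul (h2 _ _) (Nat.mul_le_mul (h2 _ _) (h2 _ _)))
      _ = 256 := by norm_num
  · exact Nat.zero_le _

private theorem sum_le (L : List Tm) (f : Tm → ℕ) (c : ℕ) (h : ∀ t, f t ≤ c) :
    (L.map f).sum ≤ L.length * c := by
  induction L with
  | nil => simp
  | cons t L ih =>
    rw [List.map_cons, List.sum_cons, List.length_cons, add_mul, one_mul]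
    have := h t
    omega

private theorem le_sum (L : List Tm) (f : Tm → ℕ) (c : ℕ) (h : ∀ t, c ≤ f t) :
    L.length * c ≤ (L.map f).sum := by
  induction L with
  | nil => simp
  | cons t L ih =>
    rw [List.map_cons, List.sum_cons, List.length_cons, add_mul, one_mul]
    have := h t
    omega

private theorem X7_pow : X1 ^ 7 = X7 := rfl
private theorem X49_pow : X7 ^ 7 = X49 := (pow_mul X1 7 7).symm
private theorem X98_pow : X49 ^ 2 = X98 := (pow_mul X1 49 2).symm

private theorem dg_eq (L : List Tm) (hL : L.length < 65536) (w k j i : ℕ) (hw : w < 4) (hk : k < 2)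
    (hj : j < 7) (hi : i < 7) : dg (loop L 0) w k j i = (L.map fun t => T4 w k j i t).sum := by
  have b4 : ∀ w k j i, (L.map fun t => T4 w k j i t).sum < X1 := fun w k j i => by
    have h := sum_le L (fun t => T4 w k j i t) 256 (T4_le w k j i)
    unfold X1
    omega
  have b3 : ∀ w k j, (L.map fun t => T3 w k j t).sum < X7 := fun w k j => by
    have h := lt_pow X1 7 _ fun i _ => b4 w k j i
    rw [← swap, X7_pow] at h
    simp only [← s3] at h
    exact h
  have b2 : ∀ w k, (L.map fun t => T2 w k t).sum < X49 := fun w k => by
    have h := lt_pow X7 7 _ fun j _ => b3 w k j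
    rw [← swap, X49_pow] at h
    simp only [← s2] at h
    exact h
  have b1 : ∀ w < 5, (L.map fun t => T1 w t).sum < X98 := fun w hw => by
    by_cases h4 : w = 4
    · have h := sum_le L (fun t => T1 w t) 1 (fun t => by unfold T1; rw [if_pos h4])
      have h1 : X1 ^ 1 ≤ X1 ^ 98 := Nat.pow_le_pow_right (by unfold X1; norm_num) (by norm_num)
      have h2 : X98 = X1 ^ 98 := rfl
      have h3 : X1 = 16777216 := rfl
      rw [pow_one, ← h2] at h1
      omega
    · have h := lt_pow X49 2 _ fun k _ => b2 w k
      rw [← swap, X98_pow] at h
      simp only [← s1 w (by omega)] at h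
      exact h
  have d0 : loop L 0 / X98 ^ w % X98 = (L.map fun t => T1 w t).sum := by
    rw [loop_eq, zero_add]
    simp only [s0]
    rw [swap]
    exact dig X98 5 _ b1 w (by omega)
  have d1 : (L.map fun t => T1 w t).sum / X49 ^ k % X49 = (L.map fun t => T2 w k t).sum := by
    simp only [s1 w hw]
    rw [swap]
    exact dig X49 2 _ (fun k _ => b2 w k) k hk
  have d2 : (L.map fun t => T2 w k t).sum / X7 ^ j % X7 = (L.map fun t => T3 w k j t).sum := by
    simp only [s2 w k]
    rw [swap]
    exact dig X7 7 _ (fun j _ => b3 w k j) j hj
  have d3 : (L.map fun t => T3 w k j t).sum / X1 ^ i % X1 = (L.map fun t => T4 w k j i t).sum := by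
    simp only [s3 w k j]
    rw [swap]
    exact dig X1 7 _ (fun i _ => b4 w k j i) i hi
  rw [← d3, ← d2, ← d1, ← d0]
  rfl

private theorem T4_cS (L : List Tm) (w : Fin 4) (k j i : ℕ) :
    (5 : ℤ) ∣ cS L w i k j - (((L.map fun t => T4 w.val k j i t).sum : ℕ) : ℤ) := by
  induction L with
  | nil => simp [cS]
  | cons t L ih =>
    have e : cS (t :: L) w i k j = (if wE t = w then
      (t.1 : ℤ) * (((gE t).choose i * (mE t).choose k * (bE t).choose j : ℕ) : ℤ) else 0) +
        cS L w i k j := rfl
    rw [e, List.map_cons, List.sum_cons, Nat.cast_add]
    have h : (5 : ℤ) ∣ (if wE t = w then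
      (t.1 : ℤ) * (((gE t).choose i * (mE t).choose k * (bE t).choose j : ℕ) : ℤ) else 0) -
        ((T4 w.val k j i t : ℕ) : ℤ) := by
      unfold T4
      by_cases hw : wE t = w
      · rw [if_pos hw, if_pos (by rw [hw])]
        have hc : ∀ n i : ℕ, ((cf n i : ℕ) : ℤ) ≡ (n.choose i : ℤ) [ZMOD 5] := fun n i => by
          unfold cf
          push_cast
          exact Int.mod_modEq _ _
        have hk : ((rk t.1 : ℕ) : ℤ) ≡ t.1 [ZMOD 5] := by
          rw [rk_eq]
          exact Int.mod_modEq _ _
        have h1 := hk.mul ((hc (gE t) i).mul ((hc (mE t) k).mul (hc (bE t) j)))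
        have h2 := h1.dvd
        push_cast
        have e2 : t.1 * (((gE t).choose i : ℤ) * ((mE t).choose k : ℤ) * ((bE t).choose j : ℤ)) =
          t.1 * (((gE t).choose i : ℤ) * (((mE t).choose k : ℤ) * ((bE t).choose j : ℤ))) := by ring
        rw [e2]
        exact h2
      · rw [if_neg hw, if_neg (fun h => hw (Fin.ext h))]
        simp
    have e3 : ∀ a b c d : ℤ, a + b - (c + d) = (a - c) + (b - d) := fun a b c d => by ring
    rw [e3]
    exact dvd_add h ih

private theorem M7_sub : ∀ t ∈ M7, t ∈ M7L ∧ t.2.1 < 2 ∧ t.2.2 < 7 ∧ t.1 < 7 := by
  decide +kernel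

/-- The fast check is correct. -/
theorem cS_fast (L : List Tm) (want : Fin 4 → ℕ → ℕ → ℕ → ℤ) (h : fastC L want = true) :
    ∀ w : Fin 4, ∀ t ∈ M7, (5 : ℤ) ∣ cS L w t.1 t.2.1 t.2.2 - want w t.1 t.2.1 t.2.2 := by
  intro w t ht
  unfold fastC at h
  rw [sq_eq] at h
  unfold chk at h
  rw [Bool.and_eq_true, List.all_eq_true] at h
  obtain ⟨h1, h2⟩ := h
  have h3 := h2 w (by fin_cases w <;> simp)
  rw [List.all_eq_true] at h3
  obtain ⟨m1, m2, m3, m4⟩ := M7_sub t ht
  have h4 := Nat.eq_of_beq_eq_true (h3 t m1)
  have h5 : loop L 0 / X392 < 65536 := Nat.le_of_ble_eq_true h1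
  have hX : 0 < X392 := pow_pos (by unfold X1; norm_num) _
  have hL : L.length < 65536 := by
    have h6 : L.length * X392 ≤ loop L 0 := by
      rw [loop_eq, zero_add]
      exact le_sum L _ _ fun t => Nat.le_add_right _ _
    exact lt_of_le_of_lt ((Nat.le_div_iff_mul_le hX).2 h6) h5
  rw [dg_eq L hL _ _ _ _ w.isLt m2 m3 m4] at h4
  have h7 := T4_cS L w t.2.1 t.2.2 t.1
  have h8 : (((L.map fun s => T4 w.val t.2.1 t.2.2 t.1 s).sum % 5 : ℕ) : ℤ) =
      want w t.1 t.2.1 t.2.2 % 5 := by
    rw [← rk_eq, ← h4]
    rfl
  have h9 : (5 : ℤ) ∣ (((L.map fun s => T4 w.val t.2.1 t.2.2 t.1 s).sum : ℕ) : ℤ) -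
      want w t.1 t.2.1 t.2.2 := by
    generalize (L.map fun s => T4 w.val t.2.1 t.2.2 t.1 s).sum = S at h8 ⊢
    omega
  have e : cS L w t.1 t.2.1 t.2.2 - want w t.1 t.2.1 t.2.2 =
      (cS L w t.1 t.2.1 t.2.2 - (((L.map fun s => T4 w.val t.2.1 t.2.2 t.1 s).sum : ℕ) : ℤ)) +
      ((((L.map fun s => T4 w.val t.2.1 t.2.2 t.1 s).sum : ℕ) : ℤ) - want w t.1 t.2.1 t.2.2) := by
    ring
  rw [e]
  exact dvd_add h7 h9

end Pool.Agent.Helper81.T7
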